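import Pool.Agent.Lib.MP_688fd0_co.TF.Iface5
import Pool.Agent.Lib.MP_688fd0_co.TE.H97.Stage

/-!
# Theorem F, module LLF, part 2: the shift which fixes one colour
-/

set_option autoImplicit false
set_option linter.all false

namespace Pool.Agent.Lib.MP_688fd0_co.TF.H32

open Pool.Agent.Lib.MP_688fd0_co.TE
open Pool.Agent.Lib.MP_688fd0_co.TF

universe u v

section fo

variable {A : Type} {B : Type} {T a : ℕ}

theorem FI_unique {ω : Fin T → Fin a → Option A} {l l' : A} (h : FI ω l) (h' : FI ω l') :
    l = l' := by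
  obtain ⟨t, j, h1, h2⟩ := h
  obtain ⟨t', j', h1', h2'⟩ := h'
  rcases lt_trichotomy t t' with ht | ht | ht
  · have := h2' t j (Or.inl ht)
    rw [h1] at this
    cases this
  · subst ht
    rcases lt_trichotomy j j' with hj | hj | hj
    · have := h2' t j (Or.inr ⟨rfl, hj⟩)
      rw [h1] at this
      cases this
    · subst hj
      rw [h1] at h1'
      exact Option.some.inj h1'
    · have := h2 t j' (Or.inr ⟨rfl, hj⟩)
      rw [h1'] at this
      cases this
  · have := h2 t' j' (Or.inl ht)
    rw [h1'] at this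
    cases this

theorem fo_iff {ω : Fin T → Fin a → Option A} {l : A} : fo ω = some l ↔ FI ω l := by
  unfold fo
  constructor
  · intro h
    by_cases hex : ∃ l, FI ω l
    · rw [dif_pos hex] at h
      rw [← Option.some.inj h]
      exact hex.choose_spec
    · rw [dif_neg hex] at h
      cases h
  · intro h
    have hex : ∃ l, FI ω l := ⟨l, h⟩
    rw [dif_pos hex, FI_unique hex.choose_spec h]

theorem fo_map (e : A → B) (ω : Fin T → Fin a → Option A) :
    fo (fun t j => Option.map e (ω t j)) = Option.map e (fo ω) := by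
  apply Option.ext
  intro l
  rw [fo_iff, Option.map_eq_some_iff]
  constructor
  · rintro ⟨t, j, h1, h2⟩
    rw [Option.map_eq_some_iff] at h1
    obtain ⟨l', h1, h3⟩ := h1
    refine ⟨l', fo_iff.2 ⟨t, j, h1, fun t' j' h => ?_⟩, h3⟩
    have := h2 t' j' h
    rwa [Option.map_eq_none_iff] at this
  · rintro ⟨l', h1, h2⟩
    obtain ⟨t, j, h3, h4⟩ := fo_iff.1 h1
    refine ⟨t, j, ?_, fun t' j' h => ?_⟩
    · show Option.map e (ω t j) = some l
      rw [h3, ← h2]; rfl
    · show Option.map e (ω t' j') = none
      rw [h4 t' j' h]; rfl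

end fo

section shift

variable {G : Type u} [Fintype G] [DecidableEq G] {T a m : ℕ} [NeZero m]

/-- shift of one field by `s` -/
def shC (s : G → ZMod m) : Fld a G (ZMod m) ≃ Fld a G (ZMod m) :=
  Equiv.piCongrRight fun _ => Equiv.piCongrRight fun v => Equiv.optionCongr (Equiv.addRight (s v))

theorem shC_apply (s : G → ZMod m) (ω : Fld a G (ZMod m)) (j : Fin a) (v : G) :
    shC s ω j v = Option.map (fun x => x + s v) (ω j v) := rfl

/-- shift of the fields of one family, except for the colours in `K` -/
def shT (K : Fin T → Bool) (s : G → ZMod m) :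
    (Fin T → Fld a G (ZMod m)) ≃ (Fin T → Fld a G (ZMod m)) :=
  Equiv.piCongrRight fun t => if K t then Equiv.refl _ else shC s

theorem shT_pos (K : Fin T → Bool) (s : G → ZMod m) (ω : Fin T → Fld a G (ZMod m)) {t : Fin T}
    (h : K t = true) : shT K s ω t = ω t := by
  show (if K t then Equiv.refl _ else shC s) (ω t) = ω t
  rw [h]; rfl

theorem shT_neg (K : Fin T → Bool) (s : G → ZMod m) (ω : Fin T → Fld a G (ZMod m)) {t : Fin T}
    (h : K t = false) : shT K s ω t = shC s (ω t) := by
  show (if K t then Equiv.refl _ else shC s) (ω t) = shC s (ω t)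
  rw [h]; rfl

/-- the colours in `K` are erased -/
def er (K : Fin T → Bool) (ω : Fin T → Fld a G (ZMod m)) : Fin T → Fld a G (ZMod m) :=
  fun t => if K t then fun _ _ => none else ω t

theorem er_shT (K : Fin T → Bool) (s : G → ZMod m) (ω : Fin T → Fld a G (ZMod m)) (t : Fin T)
    (j : Fin a) (v : G) :
    er K (shT K s ω) t j v = Option.map (fun x => x + s v) (er K ω t j v) := by
  unfold er
  cases h : K t with
  | true => rfl
  | false => rw [shT_neg K s ω h]; rfl

theorem er_eq (K : Fin T → Bool) (ω : Fin T → Fld a G (ZMod m)) (v : G)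
    (h : ∀ t, K t = true → ∀ j, ω t j v = none) :
    (fun t j => er K ω t j v) = fun t j => ω t j v := by
  funext t j
  unfold er
  cases hk : K t with
  | true => exact (h t hk j).symm
  | false => rfl

/-- law of the fields of one family -/
noncomputable def lawT (T a m : ℕ) (G : Type u) [Fintype G] [NeZero m] (ρ : ℝ) :
    (Fin T → Fld a G (ZMod m)) → ℝ :=
  piW (fun _ : Fin T => piW (fun _ : Fin a => piW (fun _ : G => optW (fun _ : ZMod m => ρ))))

theorem lawT_sh (ρ : ℝ) (K : Fin T → Bool) (s : G → ZMod m) (ω : Fin T → Fld a G (ZMod m)) :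
    lawT T a m G ρ (shT K s ω) = lawT T a m G ρ ω := by
  unfold lawT piW
  refine Finset.prod_congr rfl fun t _ => ?_
  cases h : K t with
  | true => rw [shT_pos K s ω h]
  | false =>
    rw [shT_neg K s ω h]
    refine Finset.prod_congr rfl fun j _ => Finset.prod_congr rfl fun v _ => ?_
    rw [shC_apply]
    cases h' : ω t j v with
    | none => rfl
    | some x => rfl

end shift

end Pool.Agent.Lib.MP_688fd0_co.TF.H32
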