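import Pool.Agent.Lib.MP_688fd0_co.TF.H32.LevChern
import Pool.Agent.Lib.MP_688fd0_co.TF.H32.LevShift
import Pool.Agent.Lib.MP_688fd0_co.TE.H30.Levs
import Pool.Agent.Lib.MP_688fd0_co.TE.H30.Basic
import Pool.Agent.Lib.MP_688fd0_co.TE.H35.Ppd
import Pool.Agent.Lib.MP_688fd0_co.TE.H19.Suml

/-!
# Theorem F, module LLF: level restricted loads given the fields of one colour
-/

set_option autoImplicit false
set_option linter.all false

namespace Pool.Agent.Lib.MP_688fd0_co.TF.H32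

open Pool.Agent.Lib.MP_688fd0_co.TE
open Pool.Agent.Lib.MP_688fd0_co.TF

universe u v

section nonneg

variable {V : Type u} {Val : Type v} [Fintype V] [Fintype Val] [DecidableEq V] {a : ℕ}
  (M : LM V Val a) (jm : ℕ) (ω : Fld a V Val)

theorem kb_nonneg (x w : V) : 0 ≤ M.kb jm x w :=
  Finset.sum_nonneg fun _ _ => Finset.sum_nonneg fun _ _ =>
    mul_nonneg (mul_nonneg (H19.fk_nonneg M _ _ _ _) (M.hk0 _ _ _)) (ind_nonneg _)

theorem kc_nonneg (w y : V) : 0 ≤ M.kc jm w y := H19.fk_nonneg M _ _ _ _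

theorem lx_nonneg (x : V) (j j' : ℕ) (p w : V) : 0 ≤ M.lx jm ω x j j' p w :=
  mul_nonneg (H35.PpdAux.fn_nonneg M ω 0 j (fun _ => M.hC0 _ _ _) p)
    (H35.PpdAux.gn_nonneg M ω _ _ (fun v => kb_nonneg M jm x v) w)

theorem sy_nonneg (y p : V) : 0 ≤ M.SY jm ω y p :=
  Finset.sum_nonneg fun _ _ => Finset.sum_nonneg fun _ _ =>
    mul_nonneg (mul_nonneg (H35.PpdAux.lw_nonneg M ω _ _ _) (kc_nonneg M jm _ _)) (M.hC0 _ _ _)

theorem ly_nonneg (y : V) (j j' : ℕ) (p w : V) : 0 ≤ M.ly jm ω y j j' p w :=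
  mul_nonneg (H35.PpdAux.fn_nonneg M ω _ _ (fun v => sy_nonneg M jm ω y v) p)
    (H35.PpdAux.gn_nonneg M ω _ _ (fun _ => M.hC0 _ _ _) w)

theorem lz_nonneg (y p w : V) : 0 ≤ M.lz jm ω y p w :=
  mul_nonneg (kc_nonneg M jm _ _) (H35.PpdAux.gn_nonneg M ω _ _ (fun _ => M.hC0 _ _ _) w)

theorem eb_lower (X q : ℝ) (hX : 10 ≤ X) (hq : 0 ≤ q) (j j' : ℕ) : 10 * q ≤ M.Eb jm X q j j' := by
  unfold LM.Eb
  split
  · exact le_refl _
  · have h1 : 10 * 1 ≤ X * M.H0 := mul_le_mul hX M.hH0 (by norm_num) (by linarith)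
    rw [mul_one] at h1
    exact mul_le_mul_of_nonneg_right h1 hq

end nonneg

section one

variable {G : Type u} [Group G] [Fintype G] [DecidableEq G] {c : Ctx G} {N : ℕ} (g : Gad c N)
  {m : ℕ} [NeZero m]

/-- One bound: the sum of a load over the untouched vertices of one level. -/
theorem one (hC : CHERN_S.{u, 0}) (hN : NUMF_S.{u}) (hm : c.mOK m) (τ : Bool)
    (U R : G → Prop) (φ : G → ℝ) (h0 : ∀ x, 0 ≤ φ x) (l : ZMod m) (E : ℝ)
    (hE : 10 * c.q τ ≤ E) (hφ : ∀ x, φ x ≤ 10 * c.q τ / c.b1) (hS : ∑ x, φ x ≤ E)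
    (hc : ∑ x, ind (∃ e ∈ g.res.E true, x ∈ g.Vs true e) * φ x ≤ 1 / c.X ^ 2990 * E)
    (hR : ∀ x, R x → key g x = none → ∃ e ∈ g.res.E true, x ∈ g.Vs true e) :
    Pr (unifW (G ⊕ (G × G) → ZMod m)) (fun lam =>
      ¬ (∑ x, ind (R x ∧ g.lev lam x = l ∧ ¬ U x) * φ x ≤ c.X / m * E)) ≤
      1 / (Fintype.card G : ℝ) ^ 1000 := by
  obtain ⟨n1, -, -, -, -, n6, -, -, -, n10, n11, -, -, -, n15, -⟩ := hN G c
  have hX0 : 0 < c.X := by linarith
  have hX1 : 1 ≤ c.X := by linarith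
  have hq := n6 τ
  have hE0 : 0 < E := by linarith
  have hm1 : (1 : ℝ) ≤ m := (one_le_pow₀ hX1).trans hm.1
  have hm0 : (0 : ℝ) < m := by linarith
  have hK : 0 < 10 * c.q τ / c.b1 := by positivity
  let ψ : G → ℝ := fun x => ind (¬ U x) * φ x
  have hψ0 : ∀ x, 0 ≤ ψ x := fun x => mul_nonneg (ind_nonneg _) (h0 x)
  have hψφ : ∀ x, ψ x ≤ φ x := fun x => mul_le_of_le_one_left (h0 x) (ind_le_one _)
  have hconst : ∑ x, ind (R x ∧ key g x = none) * ψ x ≤ c.X / (4 * m) * E := by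
    calc ∑ x, ind (R x ∧ key g x = none) * ψ x
        ≤ ∑ x, ind (∃ e ∈ g.res.E true, x ∈ g.Vs true e) * φ x :=
          Finset.sum_le_sum fun x _ => mul_le_mul (ind_mono fun h => hR x h.1 h.2) (hψφ x) (hψ0 x)
            (ind_nonneg _)
      _ ≤ 1 / c.X ^ 2990 * E := hc
      _ ≤ c.X / (4 * m) * E := by
          refine mul_le_mul_of_nonneg_right ?_ hE0.le
          rw [div_le_div_iff₀ (by positivity) (by positivity)]
          have h1 : (4 * (m : ℝ)) ≤ 8 * c.X ^ 1000 := by linarith [hm.2]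
          have h2 : 8 * c.X ^ 1000 ≤ c.X * c.X ^ 1000 :=
            mul_le_mul_of_nonneg_right (by linarith) (by positivity)
          have h3 : c.X * c.X ^ 1000 ≤ c.X * c.X ^ 2990 :=
            mul_le_mul_of_nonneg_left (pow_le_pow_right₀ hX1 (by norm_num)) hX0.le
          linarith
  have h := lev_chern g hC R ψ hψ0 l (10 * c.q τ / c.b1) E c.X hK hE0 n1 hm1
    (fun x => (hψφ x).trans (hφ x)) ((Finset.sum_le_sum fun x _ => hψφ x).trans hS) hconst
  have hunif : ∀ ω, 0 ≤ unifW (G ⊕ (G × G) → ZMod m) ω := fun ω => by unfold unifW; positivity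
  have hev : Pr (unifW (G ⊕ (G × G) → ZMod m)) (fun lam =>
      ¬ (∑ x, ind (R x ∧ g.lev lam x = l ∧ ¬ U x) * φ x ≤ c.X / m * E)) ≤
      Pr (unifW (G ⊕ (G × G) → ZMod m)) (fun lam =>
      c.X / m * E < ∑ x, ind (R x ∧ g.lev lam x = l) * ψ x) := by
    unfold Pr
    refine Finset.sum_le_sum fun lam _ => mul_le_mul_of_nonneg_left (ind_mono ?_) (hunif lam)
    intro h
    replace h := not_le.1 h
    refine h.trans_le (le_of_eq (Finset.sum_congr rfl fun x _ => ?_))
    show ind (R x ∧ g.lev lam x = l ∧ ¬ U x) * φ x = ind (R x ∧ g.lev lam x = l) *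
      (ind (¬ U x) * φ x)
    rw [← mul_assoc, ← ind_and]
    congr 2
    exact propext ⟨fun h => ⟨⟨h.1, h.2.1⟩, h.2.2⟩, fun h => ⟨h.1.1, h.1.2, h.2⟩⟩
  refine (hev.trans h).trans ?_
  -- numbers
  have hexpo : c.X ≤ c.X * E / (64 * m * (10 * c.q τ / c.b1)) := by
    rw [le_div_iff₀ (by positivity)]
    refine mul_le_mul_of_nonneg_left ?_ hX0.le
    rw [mul_div_assoc', div_le_iff₀ n10]
    have h1 : 64 * (m : ℝ) ≤ c.b1 := by
      have h2 : 64 * (m : ℝ) ≤ 128 * c.X ^ 1000 := by linarith [hm.2]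
      have h3 : 128 * c.X ^ 1000 ≤ c.X * c.X ^ 1000 :=
        mul_le_mul_of_nonneg_right (by linarith) (by positivity)
      have h4 : c.X * c.X ^ 1000 = c.X ^ 1001 := by rw [← pow_succ']
      have h5 : c.X ^ 1001 ≤ c.X ^ 50000 := pow_le_pow_right₀ hX1 (by norm_num)
      linarith
    calc 64 * (m : ℝ) * (10 * c.q τ) ≤ c.b1 * E :=
          mul_le_mul h1 hE (by positivity) n10.le
      _ = E * c.b1 := mul_comm _ _
  have hcard : (0 : ℝ) < (Fintype.card G : ℝ) ^ 1000 := by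
    have : (0 : ℝ) < Fintype.card G := by exact_mod_cast Fintype.card_pos
    positivity
  rw [le_div_iff₀ hcard]
  exact n15 _ hexpo

theorem row_const (x : G) (h : g.RR x) (hk : key g x = none) :
    ∃ e ∈ g.res.E true, x ∈ g.Vs true e := by
  obtain ⟨h1, h2⟩ := key_none g hk
  rcases h with h | ⟨τ, e, he, hx⟩
  · exact absurd h1 h
  · cases τ with
    | false => exact absurd hx (h2 e he).2
    | true =>
      refine ⟨e, he, ?_⟩
      have ok := g.ok true e he
      rw [hx, ← ok.av]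
      exact List.mem_of_getLast? ok.al

theorem col_const (x : G) (h : g.CC x) (hk : key g x = none) :
    ∃ e ∈ g.res.E true, x ∈ g.Vs true e := by
  obtain ⟨h1, h2⟩ := key_none g hk
  rcases h with h | ⟨τ, e, he, hx⟩
  · exact absurd h1 h
  · cases τ with
    | false => exact absurd hx (h2 e he).1
    | true =>
      refine ⟨e, he, ?_⟩
      have ok := g.ok true e he
      rw [hx, ← ok.av]
      exact List.mem_of_head? ok.ah

/-- For a good outcome of the fields of one colour and uniform levels, `LL` fails with small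
probability. -/
theorem given (hC : CHERN_S.{u, 0}) (hN : NUMF_S.{u}) (hm : c.mOK m) (τ : Bool)
    (M : LM G (ZMod m) (6 * c.k + 2)) (ω : Fld (6 * c.k + 2) G (ZMod m)) (i : ZMod m)
    (hG : g.LG M (c.q τ) ω) :
    Pr (unifW (G ⊕ (G × G) → ZMod m)) (fun lam => ¬ g.LL (g.lev lam) M (c.q τ) ω i) ≤
      (3 * ((6 * c.k + 3 : ℕ) : ℝ) ^ 2 * (Fintype.card G : ℝ) ^ 2) *
        (1 / (Fintype.card G : ℝ) ^ 1000) := by
  have n1 := (hN G c).1
  have hq := (hN G c).2.2.2.2.2.1 τ
  obtain ⟨hL1, hL2, hLS⟩ := hG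
  have hp : IsPr (unifW (G ⊕ (G × G) → ZMod m)) := H65.isPr_unif' _
  let κ : Type u := Fin 3 × Fin (6 * c.k + 3) × Fin (6 * c.k + 3) × G × G
  let Ev : κ → (G ⊕ (G × G) → ZMod m) → Prop := fun k lam =>
    if k.1 = 0 then
      (k.2.1 : ℕ) ≤ k.2.2.1 ∧ (k.2.2.1 : ℕ) ≤ k.2.1 + 1 ∧ (k.2.2.1 : ℕ) ≤ c.jl ∧
      ¬ (∑ x, ind (g.RR x ∧ g.lev lam x = i ∧ ¬ M.tch ω x) *
        M.lx c.jl ω x k.2.1 k.2.2.1 k.2.2.2.1 k.2.2.2.2 ≤
          c.X / m * M.Eb c.jl c.X (c.q τ) k.2.1 k.2.2.1)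
    else if k.1 = 1 then
      c.jl < (k.2.1 : ℕ) ∧ (k.2.1 : ℕ) ≤ k.2.2.1 ∧ (k.2.2.1 : ℕ) ≤ k.2.1 + 1 ∧
      (k.2.2.1 : ℕ) < 6 * c.k + 2 ∧
      ¬ (∑ y, ind (g.CC y ∧ g.lev lam y = i + 1 ∧ ¬ M.tch ω y) *
        M.ly c.jl ω y k.2.1 k.2.2.1 k.2.2.2.1 k.2.2.2.2 ≤
          c.X / m * M.Eb c.jl c.X (c.q τ) k.2.1 k.2.2.1)
    else
      ¬ (∑ y, ind (g.CC y ∧ g.lev lam y = i + 1 ∧ ¬ M.tch ω y) *
        M.lz c.jl ω y k.2.2.2.1 k.2.2.2.2 ≤
          c.X / m * M.Eb c.jl c.X (c.q τ) c.jl (c.jl + 1))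
  have hkl : c.jl < 6 * c.k + 3 := by unfold Ctx.jl; omega
  have hsub : ∀ lam, ¬ g.LL (g.lev lam) M (c.q τ) ω i → ∃ k, Ev k lam := by
    intro lam h
    by_contra hno
    rw [not_exists] at hno
    apply h
    constructor
    · intro j j' p w h1 h2 h3
      by_contra h4
      refine hno (0, ⟨j, by omega⟩, ⟨j', by omega⟩, p, w) ?_
      show if (0 : Fin 3) = 0 then _ else _
      rw [if_pos rfl]
      exact ⟨h1, h2, h3, h4⟩
    · intro j j' p w h0 h1 h2 h3
      by_contra h4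
      refine hno (1, ⟨j, by omega⟩, ⟨j', by omega⟩, p, w) ?_
      show if (1 : Fin 3) = 0 then _ else if (1 : Fin 3) = 1 then _ else _
      rw [if_neg (by decide), if_pos rfl]
      exact ⟨h0, h1, h2, h3, h4⟩
    · intro p w
      by_contra h4
      refine hno (2, ⟨0, by omega⟩, ⟨0, by omega⟩, p, w) ?_
      show if (2 : Fin 3) = 0 then _ else if (2 : Fin 3) = 1 then _ else _
      rw [if_neg (by decide), if_neg (by decide)]
      exact h4
  have h1000 : (0 : ℝ) ≤ 1 / (Fintype.card G : ℝ) ^ 1000 := by positivity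
  have hone : ∀ k, Pr (unifW (G ⊕ (G × G) → ZMod m)) (Ev k) ≤
      1 / (Fintype.card G : ℝ) ^ 1000 := by
    rintro ⟨s, j, j', p, w⟩
    have hfalse : ∀ P : (G ⊕ (G × G) → ZMod m) → Prop, (∀ lam, ¬ P lam) →
        Pr (unifW (G ⊕ (G × G) → ZMod m)) P ≤ 1 / (Fintype.card G : ℝ) ^ 1000 := by
      intro P hP
      have : Pr (unifW (G ⊕ (G × G) → ZMod m)) P = 0 := by
        unfold Pr
        exact Finset.sum_eq_zero fun lam _ => by rw [ind_not (hP lam), mul_zero]
      rw [this]; exact h1000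
    have hEb : ∀ j j', 10 * c.q τ ≤ M.Eb c.jl c.X (c.q τ) j j' := fun j j' =>
      eb_lower M c.jl c.X (c.q τ) (by linarith) hq.le j j'
    by_cases hs0 : s = 0
    · by_cases hj : (j : ℕ) ≤ j' ∧ (j' : ℕ) ≤ j + 1 ∧ (j' : ℕ) ≤ c.jl
      · have h := one g hC hN hm τ (fun x => M.tch ω x) g.RR
          (fun x => M.lx c.jl ω x j j' p w) (fun x => lx_nonneg M c.jl ω x j j' p w) i
          (M.Eb c.jl c.X (c.q τ) j j') (hEb _ _)
          (fun x => hLS.x0 j j' x p w hj.1 hj.2.1 hj.2.2)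
          (by simpa using hL1.x1 j j' p w hj.1 hj.2.1 hj.2.2)
          (hL2.x1 j j' p w hj.1 hj.2.1 hj.2.2) (row_const g)
        refine (H30.pr_mono hp fun lam hlam => ?_).trans h
        have : Ev (s, j, j', p, w) lam := hlam
        simp only [Ev, hs0, if_true] at this
        exact this.2.2.2
      · refine hfalse _ fun lam hlam => hj ?_
        have : Ev (s, j, j', p, w) lam := hlam
        simp only [Ev, hs0, if_true] at this
        exact ⟨this.1, this.2.1, this.2.2.1⟩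
    · by_cases hs1 : s = 1
      · by_cases hj : c.jl < (j : ℕ) ∧ (j : ℕ) ≤ j' ∧ (j' : ℕ) ≤ j + 1 ∧ (j' : ℕ) < 6 * c.k + 2
        · have h := one g hC hN hm τ (fun x => M.tch ω x) g.CC
            (fun x => M.ly c.jl ω x j j' p w) (fun x => ly_nonneg M c.jl ω x j j' p w) (i + 1)
            (M.Eb c.jl c.X (c.q τ) j j') (hEb _ _)
            (fun x => hLS.y0 j j' x p w hj.1 hj.2.1 hj.2.2.1 hj.2.2.2)
            (by simpa using hL1.y1 j j' p w hj.1 hj.2.1 hj.2.2.1 hj.2.2.2)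
            (hL2.y1 j j' p w hj.1 hj.2.1 hj.2.2.1 hj.2.2.2) (col_const g)
          refine (H30.pr_mono hp fun lam hlam => ?_).trans h
          have : Ev (s, j, j', p, w) lam := hlam
          simp only [Ev, hs1] at this
          rw [if_neg (by decide), if_pos trivial] at this
          exact this.2.2.2.2
        · refine hfalse _ fun lam hlam => hj ?_
          have : Ev (s, j, j', p, w) lam := hlam
          simp only [Ev, hs1] at this
          rw [if_neg (by decide), if_pos trivial] at this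
          exact ⟨this.1, this.2.1, this.2.2.1, this.2.2.2.1⟩
      · have h := one g hC hN hm τ (fun x => M.tch ω x) g.CC
          (fun x => M.lz c.jl ω x p w) (fun x => lz_nonneg M c.jl ω x p w) (i + 1)
          (M.Eb c.jl c.X (c.q τ) c.jl (c.jl + 1)) (hEb _ _)
          (fun x => hLS.z0 x p w)
          (by simpa using hL1.z1 p w)
          (hL2.z1 p w) (col_const g)
        refine (H30.pr_mono hp fun lam hlam => ?_).trans h
        have : Ev (s, j, j', p, w) lam := hlam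
        simp only [Ev] at this
        rw [if_neg hs0, if_neg hs1] at this
        exact this
  calc Pr (unifW (G ⊕ (G × G) → ZMod m)) (fun lam => ¬ g.LL (g.lev lam) M (c.q τ) ω i)
      ≤ Pr (unifW (G ⊕ (G × G) → ZMod m)) (fun lam => ∃ k, Ev k lam) := H30.pr_mono hp hsub
    _ ≤ ∑ k, Pr (unifW (G ⊕ (G × G) → ZMod m)) (Ev k) := H30.pr_exists_le hp Ev
    _ ≤ ∑ k : κ, 1 / (Fintype.card G : ℝ) ^ 1000 := Finset.sum_le_sum fun k _ => hone k
    _ = _ := by
        rw [Finset.sum_const, Finset.card_univ, nsmul_eq_mul]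
        congr 1
        show ((Fintype.card (Fin 3 × Fin (6 * c.k + 3) × Fin (6 * c.k + 3) × G × G) : ℕ) : ℝ) = _
        simp only [Fintype.card_prod, Fintype.card_fin]
        push_cast
        ring

/-- `LL` depends only on the levels of the untouched vertices. -/
theorem ll_congr (M : LM G (ZMod m) (6 * c.k + 2)) (q : ℝ) (ω : Fld (6 * c.k + 2) G (ZMod m))
    (i : ZMod m) (lv lv' : G → ZMod m) (h : ∀ x, ¬ M.tch ω x → lv x = lv' x)
    (hL : g.LL lv M q ω i) : g.LL lv' M q ω i := by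
  have key : ∀ (R : G → Prop) (l : ZMod m) (x : G),
      ind (R x ∧ lv' x = l ∧ ¬ M.tch ω x) = ind (R x ∧ lv x = l ∧ ¬ M.tch ω x) := by
    intro R l x
    congr 1
    apply propext
    constructor
    · rintro ⟨h1, h2, h3⟩
      exact ⟨h1, by rw [h x h3]; exact h2, h3⟩
    · rintro ⟨h1, h2, h3⟩
      exact ⟨h1, by rw [← h x h3]; exact h2, h3⟩
  constructor
  · intro j j' p w h1 h2 h3
    simp only [key g.RR i]
    exact hL.x1 j j' p w h1 h2 h3
  · intro j j' p w h0 h1 h2 h3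
    simp only [key g.CC (i + 1)]
    exact hL.y1 j j' p w h0 h1 h2 h3
  · intro p w
    simp only [key g.CC (i + 1)]
    exact hL.z1 p w

end one

/-- The law of all fields and default levels is a probability. -/
theorem lw4_pr {G : Type u} [Group G] [Fintype G] [DecidableEq G] (c : Ctx G) (m : ℕ) [NeZero m]
    (hX : 1 ≤ c.X) : IsPr (lw4 c m) := by
  have hm0 : (0 : ℝ) < m := by
    have := NeZero.pos m
    exact_mod_cast this
  have h0 : IsPr (piW (fun _ : Fin c.T => piW (fun _ : Fin (6 * c.k + 2) => piW (fun _ : G =>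
      optW (fun _ : ZMod m => 1 / c.X ^ 5 / m))))) := by
    refine H97.isPr_piW _ fun _ => H97.isPr_piW _ fun _ => H97.isPr_piW _ fun _ =>
      H97.isPr_optW _ (fun _ => by positivity) ?_
    rw [Finset.sum_const, Finset.card_univ, ZMod.card, nsmul_eq_mul]
    have : (m : ℝ) * (1 / c.X ^ 5 / m) = 1 / c.X ^ 5 := by field_simp
    rw [this, div_le_one (by positivity)]
    exact one_le_pow₀ hX
  exact H30.isPr4 _ _ _ _ h0 h0 (H30.isPr_unifW _) (H30.isPr_unifW _)

theorem llf (hV : LVUNG_S.{u, u}) (hC : CHERN_S.{u, 0}) (hN : NUMF_S.{u}) : LLF_S.{u} := by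
  intro G _ _ _ c N g m _ M _ hm hM
  obtain ⟨n1, n2, n3, -, -, n6, n7, n8, n9, -⟩ := hN G c
  have hX1 : 1 ≤ c.X := by linarith
  have hX0 : 0 < c.X := by linarith
  have hpr := lw4_pr c m hX1
  set n : ℝ := (Fintype.card G : ℝ) with hn
  have hnX : c.X ^ 200000 ≤ n := n8.trans n9
  have hn0 : 0 < n := lt_of_lt_of_le (by positivity) hnX
  set δ : ℝ := (3 * ((6 * c.k + 3 : ℕ) : ℝ) ^ 2 * n ^ 2) * (1 / n ^ 1000) with hδ
  have hδ0 : 0 ≤ δ := by positivity
  -- one colour
  have hcol : ∀ (τ : Bool) (i : ZMod m) (t : Fin c.T), Pr (lw4 c m) (fun p =>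
      g.LG (M τ i) (c.q τ) ((if τ then p.2.1 else p.1) t) ∧
      ¬ g.LL (g.lev (Sum.elim (fstv p.1 p.2.1 p.2.2.1) p.2.2.2)) (M τ i) (c.q τ)
        ((if τ then p.2.1 else p.1) t) i) ≤ δ := by
    intro τ i t
    let K0 : Fin c.T → Bool := fun t' => !τ && decide (t' = t)
    let K1 : Fin c.T → Bool := fun t' => τ && decide (t' = t)
    let Ω : Type u := (Fin c.T → Fld (6 * c.k + 2) G (ZMod m)) ×
      (Fin c.T → Fld (6 * c.k + 2) G (ZMod m)) × (G → ZMod m) × (G × G → ZMod m)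
    let sh : (G ⊕ (G × G) → ZMod m) → Ω ≃ Ω := fun s =>
      Equiv.prodCongr (shT K0 (fun v => s (Sum.inl v))) (Equiv.prodCongr
        (shT K1 (fun v => s (Sum.inl v))) (Equiv.prodCongr
          (Equiv.addRight (fun v => s (Sum.inl v))) (Equiv.addRight (fun e => s (Sum.inr e)))))
    let f : Ω → G ⊕ (G × G) → ZMod m := fun p =>
      Sum.elim (fstv (er K0 p.1) (er K1 p.2.1) p.2.2.1) p.2.2.2
    let W : Ω → Fld (6 * c.k + 2) G (ZMod m) := fun p => (if τ then p.2.1 else p.1) t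
    let H : Ω → (G ⊕ (G × G) → ZMod m) → ℝ := fun p lam =>
      ind (g.LG (M τ i) (c.q τ) (W p) ∧ ¬ g.LL (g.lev lam) (M τ i) (c.q τ) (W p) i)
    have hW : ∀ s p, W (sh s p) = W p := by
      intro s p
      cases hτ : τ with
      | false =>
        have hk : K0 t = true := by simp [K0, hτ]
        have : shT K0 (fun v => s (Sum.inl v)) p.1 t = p.1 t := shT_pos K0 _ p.1 hk
        simp only [W, hτ]
        exact this
      | true =>
        have hk : K1 t = true := by simp [K1, hτ]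
        have : shT K1 (fun v => s (Sum.inl v)) p.2.1 t = p.2.1 t := shT_pos K1 _ p.2.1 hk
        simp only [W, hτ]
        exact this
    have hinv : ∀ s p, lw4 c m (sh s p) = lw4 c m p := by
      intro s p
      have e1 := lawT_sh (T := c.T) (a := 6 * c.k + 2) (m := m) (1 / c.X ^ 5 / m) K0
        (fun v => s (Sum.inl v)) p.1
      have e2 := lawT_sh (T := c.T) (a := 6 * c.k + 2) (m := m) (1 / c.X ^ 5 / m) K1
        (fun v => s (Sum.inl v)) p.2.1
      show lawT c.T (6 * c.k + 2) m G (1 / c.X ^ 5 / m) (shT K0 (fun v => s (Sum.inl v)) p.1) *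
          lawT c.T (6 * c.k + 2) m G (1 / c.X ^ 5 / m) (shT K1 (fun v => s (Sum.inl v)) p.2.1) *
          unifW (G → ZMod m) _ * unifW (G × G → ZMod m) _ =
        lawT c.T (6 * c.k + 2) m G (1 / c.X ^ 5 / m) p.1 *
          lawT c.T (6 * c.k + 2) m G (1 / c.X ^ 5 / m) p.2.1 *
          unifW (G → ZMod m) _ * unifW (G × G → ZMod m) _
      rw [e1, e2]
      rfl
    have hf : ∀ s p, f (sh s p) = f p + s := by
      intro s p
      funext ι
      cases ι with
      | inl v =>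
        show fstv (er K0 (shT K0 (fun v => s (Sum.inl v)) p.1))
          (er K1 (shT K1 (fun v => s (Sum.inl v)) p.2.1)) (fun v => p.2.2.1 v + s (Sum.inl v)) v =
          fstv (er K0 p.1) (er K1 p.2.1) p.2.2.1 v + s (Sum.inl v)
        unfold fstv
        have e1 : (fun t j => er K0 (shT K0 (fun v => s (Sum.inl v)) p.1) t j v) = fun t j =>
            Option.map (fun x => x + s (Sum.inl v)) (er K0 p.1 t j v) := by
          funext t j; exact er_shT K0 _ p.1 t j v
        have e2 : (fun t j => er K1 (shT K1 (fun v => s (Sum.inl v)) p.2.1) t j v) = fun t j =>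
            Option.map (fun x => x + s (Sum.inl v)) (er K1 p.2.1 t j v) := by
          funext t j; exact er_shT K1 _ p.2.1 t j v
        rw [e1, e2, fo_map, fo_map]
        cases fo (fun t j => er K0 p.1 t j v) with
        | some l => rfl
        | none =>
          cases fo (fun t j => er K1 p.2.1 t j v) with
          | some l => rfl
          | none => rfl
      | inr e => rfl
    have hH : ∀ s p lam, H (sh s p) lam = H p lam := by
      intro s p lam
      simp only [H, hW]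
    have hmain := hV Ω (G ⊕ (G × G)) m (lw4 c m) sh f H hinv hf hH
    -- the event
    have hfirst : Pr (lw4 c m) (fun p =>
        g.LG (M τ i) (c.q τ) ((if τ then p.2.1 else p.1) t) ∧
        ¬ g.LL (g.lev (Sum.elim (fstv p.1 p.2.1 p.2.2.1) p.2.2.2)) (M τ i) (c.q τ)
          ((if τ then p.2.1 else p.1) t) i) ≤ Ex (lw4 c m) (fun p => H p (f p)) := by
      unfold Pr Ex
      refine Finset.sum_le_sum fun p _ => mul_le_mul_of_nonneg_left ?_ (hpr.nn p)
      refine ind_mono ?_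
      rintro ⟨h1, h2⟩
      refine ⟨h1, fun h3 => h2 (ll_congr g (M τ i) (c.q τ) (W p) i _ _ ?_ h3)⟩
      intro x hx
      have hnone : ∀ j, W p j x = none := by
        intro j
        cases hj : W p j x with
        | none => rfl
        | some e =>
          exfalso
          refine hx ⟨j, x, e, ?_, Or.inl rfl⟩
          unfold val
          rw [dif_pos j.2]
          exact hj
      have hx0 : (fun t j => er K0 p.1 t j x) = fun t j => p.1 t j x := by
        refine er_eq K0 p.1 x fun t' ht' j => ?_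
        have h4 : τ = false ∧ t' = t := by
          simpa [K0, Bool.and_eq_true] using ht'
        have := hnone j
        simp only [W, h4.1] at this
        rw [h4.2]
        exact this
      have hx1 : (fun t j => er K1 p.2.1 t j x) = fun t j => p.2.1 t j x := by
        refine er_eq K1 p.2.1 x fun t' ht' j => ?_
        have h4 : τ = true ∧ t' = t := by
          simpa [K1, Bool.and_eq_true] using ht'
        have := hnone j
        simp only [W, h4.1] at this
        rw [h4.2]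
        exact this
      have hfst : fstv (er K0 p.1) (er K1 p.2.1) p.2.2.1 x = fstv p.1 p.2.1 p.2.2.1 x := by
        unfold fstv
        rw [hx0, hx1]
      rw [lev_eq, lev_eq]
      cases hk : key g x with
      | none => rfl
      | some κ =>
        cases κ with
        | inl v =>
          have := (key_inl g hk).2
          subst this
          exact hfst
        | inr e => rfl
    refine hfirst.trans ?_
    rw [hmain]
    have hb : ∀ p, Ex (unifW (G ⊕ (G × G) → ZMod m)) (H p) ≤ δ := by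
      intro p
      by_cases h1 : g.LG (M τ i) (c.q τ) (W p)
      · have h2 := given g hC hN hm τ (M τ i) (W p) i h1
        refine le_trans (le_of_eq ?_) h2
        unfold Ex Pr
        refine Finset.sum_congr rfl fun lam _ => ?_
        simp only [H, h1, true_and]
      · have : Ex (unifW (G ⊕ (G × G) → ZMod m)) (H p) = 0 := by
          unfold Ex
          refine Finset.sum_eq_zero fun lam _ => ?_
          simp only [H, h1, false_and]
          rw [ind_not not_false, mul_zero]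
        rw [this]
        exact hδ0
    calc Ex (lw4 c m) (fun p => Ex (unifW (G ⊕ (G × G) → ZMod m)) (H p))
        ≤ Ex (lw4 c m) (fun _ => δ) := by
          unfold Ex
          exact Finset.sum_le_sum fun p _ => mul_le_mul_of_nonneg_left (hb p) (hpr.nn p)
      _ = δ := by
          unfold Ex
          rw [← Finset.sum_mul, hpr.one, one_mul]
  -- union bound
  let κ : Type := Bool × ZMod m × Fin c.T
  have hun := H30.pr_exists_le hpr (fun k : κ => fun p =>
      g.LG (M k.1 k.2.1) (c.q k.1) ((if k.1 then p.2.1 else p.1) k.2.2) ∧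
      ¬ g.LL (g.lev (Sum.elim (fstv p.1 p.2.1 p.2.2.1) p.2.2.2)) (M k.1 k.2.1) (c.q k.1)
        ((if k.1 then p.2.1 else p.1) k.2.2) k.2.1)
  have hsub := H30.pr_mono hpr (E := fun p => ∃ (τ : Bool) (i : ZMod m) (t : Fin c.T),
      g.LG (M τ i) (c.q τ) ((if τ then p.2.1 else p.1) t) ∧
      ¬ g.LL (g.lev (Sum.elim (fstv p.1 p.2.1 p.2.2.1) p.2.2.2)) (M τ i) (c.q τ)
        ((if τ then p.2.1 else p.1) t) i) (F := fun p => ∃ k : κ,
      g.LG (M k.1 k.2.1) (c.q k.1) ((if k.1 then p.2.1 else p.1) k.2.2) ∧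
      ¬ g.LL (g.lev (Sum.elim (fstv p.1 p.2.1 p.2.2.1) p.2.2.2)) (M k.1 k.2.1) (c.q k.1)
        ((if k.1 then p.2.1 else p.1) k.2.2) k.2.1)
    (fun p ⟨τ, i, t, h⟩ => ⟨(τ, i, t), h⟩)
  refine (hsub.trans hun).trans ?_
  have hsum : ∑ k : κ, Pr (lw4 c m) (fun p =>
      g.LG (M k.1 k.2.1) (c.q k.1) ((if k.1 then p.2.1 else p.1) k.2.2) ∧
      ¬ g.LL (g.lev (Sum.elim (fstv p.1 p.2.1 p.2.2.1) p.2.2.2)) (M k.1 k.2.1) (c.q k.1)
        ((if k.1 then p.2.1 else p.1) k.2.2) k.2.1) ≤ ∑ k : κ, δ :=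
    Finset.sum_le_sum fun k _ => hcol k.1 k.2.1 k.2.2
  refine hsum.trans ?_
  rw [Finset.sum_const, Finset.card_univ, nsmul_eq_mul]
  have hcard : (Fintype.card κ : ℝ) = 2 * m * c.T := by
    show ((Fintype.card (Bool × ZMod m × Fin c.T) : ℕ) : ℝ) = _
    simp only [Fintype.card_prod, Fintype.card_bool, ZMod.card, Fintype.card_fin]
    push_cast
    ring
  rw [hcard]
  -- numbers
  have hXn : c.X ≤ n := by
    calc c.X = c.X ^ 1 := (pow_one _).symm
      _ ≤ c.X ^ 200000 := pow_le_pow_right₀ hX1 (by norm_num)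
      _ ≤ n := hnX
  have hn10 : 10 ^ 6 ≤ n := n1.trans hXn
  have hn1 : 1 ≤ n := by linarith
  have hmn : (m : ℝ) ≤ n := by
    have h1 : 2 * c.X ^ 1000 ≤ c.X * c.X ^ 1000 :=
      mul_le_mul_of_nonneg_right (by linarith) (by positivity)
    have h2 : c.X * c.X ^ 1000 = c.X ^ 1001 := by rw [← pow_succ']
    have h3 : c.X ^ 1001 ≤ c.X ^ 200000 := pow_le_pow_right₀ hX1 (by norm_num)
    linarith [hm.2]
  have hsmall : ∀ y : ℝ, 0 ≤ y → (10 ^ 6 * y) ^ 200 ≤ c.X → 10 ^ 6 * y ≤ c.X := by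
    intro y hy h
    by_cases h1 : 1 ≤ 10 ^ 6 * y
    · exact (le_self_pow₀ h1 (by norm_num)).trans h
    · linarith
  have hTn : (c.T : ℝ) ≤ n := by
    have := hsmall c.T (by positivity) n3
    have h2 : (0 : ℝ) ≤ c.T := by positivity
    linarith
  have hkn : ((6 * c.k + 3 : ℕ) : ℝ) ≤ n := by
    have := hsmall c.k (by positivity) n2
    have h2 : (0 : ℝ) ≤ c.k := by positivity
    push_cast
    linarith
  have hT0 : (0 : ℝ) ≤ c.T := by positivity
  have hm0 : (0 : ℝ) ≤ m := by positivity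
  have hk0 : (0 : ℝ) ≤ ((6 * c.k + 3 : ℕ) : ℝ) := by positivity
  have hbig : 2 * (m : ℝ) * c.T * (3 * ((6 * c.k + 3 : ℕ) : ℝ) ^ 2 * n ^ 2) ≤ n ^ 998 := by
    have h1 : 2 * (m : ℝ) * c.T ≤ n * n * n := by
      have := mul_le_mul hmn hTn hT0 hn0.le
      have h2 : 2 * ((m : ℝ) * c.T) ≤ n * (n * n) :=
        mul_le_mul (by linarith) this (by positivity) hn0.le
      nlinarith
    have h2 : 3 * ((6 * c.k + 3 : ℕ) : ℝ) ^ 2 * n ^ 2 ≤ n * n ^ 2 * n ^ 2 := by
      refine mul_le_mul_of_nonneg_right ?_ (by positivity)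
      exact mul_le_mul (by linarith) (pow_le_pow_left₀ hk0 hkn 2) (by positivity) hn0.le
    calc 2 * (m : ℝ) * c.T * (3 * ((6 * c.k + 3 : ℕ) : ℝ) ^ 2 * n ^ 2)
        ≤ (n * n * n) * (n * n ^ 2 * n ^ 2) :=
          mul_le_mul h1 h2 (by positivity) (by positivity)
      _ = n ^ 8 := by ring
      _ ≤ n ^ 998 := pow_le_pow_right₀ hn1 (by norm_num)
  rw [hδ, ← mul_assoc]
  calc 2 * (m : ℝ) * c.T * (3 * ((6 * c.k + 3 : ℕ) : ℝ) ^ 2 * n ^ 2) * (1 / n ^ 1000)
      ≤ n ^ 998 * (1 / n ^ 1000) := mul_le_mul_of_nonneg_right hbig (by positivity)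
    _ = 1 / n ^ 2 := by
        have h1 : n ^ 1000 = n ^ 998 * n ^ 2 := by rw [← pow_add]
        have h2 : n ^ 998 ≠ 0 := by positivity
        have h3 : n ^ 2 ≠ 0 := by positivity
        rw [h1]
        field_simp

end Pool.Agent.Lib.MP_688fd0_co.TF.H32
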