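import Pool.Agent.Lib.MP_688fd0_co.TF.Iface5
import Pool.Agent.Lib.MP_688fd0_co.TE.H65.LevConc

/-!
# Theorem F, module LLF, part 1: Chernoff for sums over the vertices of one level
-/

set_option autoImplicit false
set_option linter.all false

namespace Pool.Agent.Lib.MP_688fd0_co.TF.H32

open Pool.Agent.Lib.MP_688fd0_co.TE
open Pool.Agent.Lib.MP_688fd0_co.TF

universe u

section key

variable {G : Type u} [Group G] [Fintype G] [DecidableEq G] {c : Ctx G} {N : ℕ} (g : Gad c N)

open scoped Classical in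
/-- The coordinate read by `g.lev` at the vertex `x` (`none`: the level is the constant `0`). -/
noncomputable def key (x : G) : Option (G ⊕ (G × G)) :=
  if ¬ g.W x then some (Sum.inl x)
  else if h : ∃ e, e ∈ g.res.E false ∧ (x = g.i false e ∨ x = g.o false e) then
    some (Sum.inr h.choose)
  else none

theorem lev_eq {m : ℕ} (lam : G ⊕ (G × G) → ZMod m) (x : G) :
    g.lev lam x = (key g x).elim 0 lam := by
  unfold Gad.lev key
  by_cases h1 : ¬ g.W x
  · rw [if_pos h1, if_pos h1]; rfl
  · rw [if_neg h1, if_neg h1]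
    by_cases h2 : ∃ e, e ∈ g.res.E false ∧ (x = g.i false e ∨ x = g.o false e)
    · rw [dif_pos h2, dif_pos h2]; rfl
    · rw [dif_neg h2, dif_neg h2]; rfl

theorem key_inl {x v : G} (h : key g x = some (Sum.inl v)) : ¬ g.W x ∧ x = v := by
  unfold key at h
  by_cases h1 : ¬ g.W x
  · rw [if_pos h1] at h
    exact ⟨h1, Sum.inl.inj (Option.some.inj h)⟩
  · rw [if_neg h1] at h
    by_cases h2 : ∃ e, e ∈ g.res.E false ∧ (x = g.i false e ∨ x = g.o false e)
    · rw [dif_pos h2] at h
      exact absurd (Option.some.inj h) (by simp)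
    · rw [dif_neg h2] at h
      exact absurd h (by simp)

theorem key_inr {x : G} {e : G × G} (h : key g x = some (Sum.inr e)) :
    g.W x ∧ e ∈ g.res.E false ∧ (x = g.i false e ∨ x = g.o false e) := by
  unfold key at h
  by_cases h1 : ¬ g.W x
  · rw [if_pos h1] at h
    exact absurd (Option.some.inj h) (by simp)
  · rw [if_neg h1] at h
    by_cases h2 : ∃ e, e ∈ g.res.E false ∧ (x = g.i false e ∨ x = g.o false e)
    · rw [dif_pos h2] at h
      have h3 : h2.choose = e := Sum.inr.inj (Option.some.inj h)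
      rw [← h3]
      exact ⟨not_not.1 h1, h2.choose_spec⟩
    · rw [dif_neg h2] at h
      exact absurd h (by simp)

theorem key_nW {x : G} (h : ¬ g.W x) : key g x = some (Sum.inl x) := by
  unfold key; rw [if_pos h]

theorem key_port {x : G} {e : G × G} (he : e ∈ g.res.E false)
    (h : x = g.i false e ∨ x = g.o false e) : key g x ≠ none := by
  unfold key
  by_cases h1 : ¬ g.W x
  · rw [if_pos h1]; simp
  · rw [if_neg h1, dif_pos ⟨e, he, h⟩]; simp

theorem key_none {x : G} (h : key g x = none) :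
    g.W x ∧ ∀ e ∈ g.res.E false, x ≠ g.i false e ∧ x ≠ g.o false e := by
  constructor
  · by_contra h1
    rw [key_nW g h1] at h
    exact absurd h (by simp)
  · intro e he
    exact ⟨fun h1 => key_port g he (Or.inl h1) h, fun h1 => key_port g he (Or.inr h1) h⟩

/-- The sum of `H` over the vertices with a given coordinate. -/
theorem key_sum (H : G → ℝ) (β : ℝ) (hβ : ∀ x, H x ≤ β) (hb : 0 ≤ β)
    (ι : G ⊕ (G × G)) : ∑ x, H x * ind (key g x = some ι) ≤ 2 * β := by
  classical
  obtain ⟨a, b, hab⟩ : ∃ a b : G, ∀ x, key g x = some ι → x = a ∨ x = b := by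
    rcases ι with v | e
    · exact ⟨v, v, fun x hx => Or.inl (key_inl g hx).2⟩
    · exact ⟨g.i false e, g.o false e, fun x hx => (key_inr g hx).2.2⟩
  calc ∑ x, H x * ind (key g x = some ι)
      ≤ ∑ x, ((if x = a then β else 0) + (if x = b then β else 0)) := by
        refine Finset.sum_le_sum fun x _ => ?_
        by_cases hx : key g x = some ι
        · rw [ind_of hx, mul_one]
          rcases hab x hx with h | h
          · rw [if_pos h]
            have : (0 : ℝ) ≤ if x = b then β else 0 := by split <;> simp [hb]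
            linarith [hβ x]
          · rw [if_pos h]
            have : (0 : ℝ) ≤ if x = a then β else 0 := by split <;> simp [hb]
            linarith [hβ x]
        · rw [ind_not hx, mul_zero]
          have h1 : (0 : ℝ) ≤ if x = a then β else 0 := by split <;> simp [hb]
          have h2 : (0 : ℝ) ≤ if x = b then β else 0 := by split <;> simp [hb]
          linarith
    _ = 2 * β := by
        rw [Finset.sum_add_distrib, Finset.sum_ite_eq', Finset.sum_ite_eq',
          if_pos (Finset.mem_univ _), if_pos (Finset.mem_univ _)]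
        ring

theorem key_sum_sum (H : G → ℝ) (h0 : ∀ x, 0 ≤ H x) :
    ∑ ι, ∑ x, H x * ind (key g x = some ι) ≤ ∑ x, H x := by
  rw [Finset.sum_comm]
  refine Finset.sum_le_sum fun x _ => ?_
  rw [← Finset.mul_sum]
  have h1 : ∑ ι, ind (key g x = some ι) ≤ 1 := by
    cases hk : key g x with
    | none =>
      rw [Finset.sum_eq_zero]
      · norm_num
      · intro ι _; exact ind_not (by simp)
    | some κ =>
      rw [Finset.sum_eq_single κ]
      · exact ind_le_one _
      · intro ι _ hι
        exact ind_not (fun h => hι (Option.some.inj h).symm)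
      · intro h; exact absurd (Finset.mem_univ _) h
  calc H x * ∑ ι, ind (key g x = some ι) ≤ H x * 1 := mul_le_mul_of_nonneg_left h1 (h0 x)
    _ = H x := mul_one _

/-- The level restricted sum is at most the constant part plus a sum over the coordinates. -/
theorem lev_split {m : ℕ} (R : G → Prop) (φ : G → ℝ) (h0 : ∀ x, 0 ≤ φ x) (l : ZMod m)
    (lam : G ⊕ (G × G) → ZMod m) :
    ∑ x, ind (R x ∧ g.lev lam x = l) * φ x ≤ ∑ x, ind (R x ∧ key g x = none) * φ x +
      ∑ ι, ind (lam ι = l) * ∑ x, φ x * ind (key g x = some ι) := by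
  have h1 : ∑ ι, ind (lam ι = l) * ∑ x, φ x * ind (key g x = some ι) =
      ∑ x, ∑ ι, ind (lam ι = l) * (φ x * ind (key g x = some ι)) := by
    simp only [Finset.mul_sum]
    rw [Finset.sum_comm]
  rw [h1, ← Finset.sum_add_distrib]
  refine Finset.sum_le_sum fun x _ => ?_
  have h3 : 0 ≤ ∑ ι, ind (lam ι = l) * (φ x * ind (key g x = some ι)) :=
    Finset.sum_nonneg fun ι _ => mul_nonneg (ind_nonneg _) (mul_nonneg (h0 x) (ind_nonneg _))
  have h4 : 0 ≤ ind (R x ∧ key g x = none) * φ x := mul_nonneg (ind_nonneg _) (h0 x)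
  cases hk : key g x with
  | none =>
    rw [hk] at h3
    have h2 : ind (R x ∧ g.lev lam x = l) * φ x ≤ ind (R x ∧ (none : Option (G ⊕ (G × G))) = none) * φ x :=
      mul_le_mul_of_nonneg_right (ind_mono fun h => ⟨h.1, rfl⟩) (h0 x)
    linarith
  | some κ =>
    rw [hk] at h4
    have hl : g.lev lam x = lam κ := by rw [lev_eq, hk]; rfl
    rw [hl]
    have h5 : ind (lam κ = l) * (φ x * ind (some κ = some κ)) ≤
        ∑ ι, ind (lam ι = l) * (φ x * ind (some κ = some ι)) :=
      Finset.single_le_sum (f := fun ι => ind (lam ι = l) * (φ x * ind (some κ = some ι)))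
        (fun ι _ => mul_nonneg (ind_nonneg _) (mul_nonneg (h0 x) (ind_nonneg _)))
        (Finset.mem_univ κ)
    rw [ind_of rfl, mul_one] at h5
    have h6 : ind (R x ∧ lam κ = l) * φ x ≤ ind (lam κ = l) * φ x :=
      mul_le_mul_of_nonneg_right (ind_mono fun h => h.2) (h0 x)
    linarith

/-- Chernoff for the sum of `φ` over the vertices in `R` of level `l`. -/
theorem lev_chern (hC : CHERN_S.{u, 0}) {m : ℕ} [NeZero m] (R : G → Prop) (φ : G → ℝ)
    (h0 : ∀ x, 0 ≤ φ x) (l : ZMod m) (K E X : ℝ) (hK : 0 < K) (hE : 0 < E) (hX : 10 ^ 6 ≤ X)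
    (hm1 : 1 ≤ (m : ℝ)) (hφ : ∀ x, φ x ≤ K) (hS : ∑ x, φ x ≤ E)
    (hc : ∑ x, ind (R x ∧ key g x = none) * φ x ≤ X / (4 * m) * E) :
    Pr (unifW (G ⊕ (G × G) → ZMod m)) (fun lam =>
      X / m * E < ∑ x, ind (R x ∧ g.lev lam x = l) * φ x) ≤
      Real.exp (-(X * E / (64 * m * K))) := by
  have hp : ∀ _ : G ⊕ (G × G), IsPr (unifW (ZMod m)) := fun _ => H65.isPr_unif (ZMod m)
  have hm0 : (0 : ℝ) < m := by linarith
  set S : G ⊕ (G × G) → ℝ := fun ι => ∑ x, φ x * ind (key g x = some ι) with hSdef
  have hS0 : ∀ ι, 0 ≤ S ι := fun ι => Finset.sum_nonneg fun x _ =>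
    mul_nonneg (h0 x) (ind_nonneg _)
  have hS1 : ∀ ι, S ι ≤ 2 * K := fun ι => key_sum g φ K hφ hK.le ι
  have hS2 : ∑ ι, S ι ≤ E := (key_sum_sum g φ h0).trans hS
  have hX0 : 0 < X := by linarith
  have hEx : ∑ ι, Ex (unifW (ZMod m)) (fun a => ind (a = l) * S ι) ≤ X * E / (8 * m) := by
    have h1 : ∀ ι, Ex (unifW (ZMod m)) (fun a => ind (a = l) * S ι) = S ι / m := by
      intro ι
      unfold Ex unifW
      rw [ZMod.card, Finset.sum_eq_single l]
      · show 1 / (m : ℝ) * (ind (l = l) * S ι) = S ι / m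
        rw [ind_of rfl]; ring
      · intro a _ ha
        show 1 / (m : ℝ) * (ind (a = l) * S ι) = 0
        rw [ind_not ha]; ring
      · intro h; exact absurd (Finset.mem_univ _) h
    simp only [h1]
    rw [← Finset.sum_div, div_le_div_iff₀ hm0 (by positivity)]
    nlinarith [mul_le_mul_of_nonneg_right hS2 hm0.le, mul_pos hE hm0,
      mul_le_mul_of_nonneg_right hX (mul_pos hE hm0).le]
  have hch := hC (G ⊕ (G × G)) (fun _ => ZMod m) (fun _ => unifW (ZMod m)) hp
    (fun ι a => ind (a = l) * S ι) (2 * K) (X * E / (8 * m)) (X * E / (8 * m)) (by positivity)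
    (by positivity) (fun ι a => mul_nonneg (ind_nonneg _) (hS0 ι))
    (fun ι a => (mul_le_of_le_one_left (hS0 ι) (ind_le_one _)).trans (hS1 ι)) hEx
    (by have : 0 < X * E / (8 * m) := by positivity
        linarith)
  rw [← H65.unif_pi] at hch
  have hexp : (X * E / (8 * m)) ^ 2 / (4 * (X * E / (8 * m)) * (2 * K)) =
      X * E / (64 * m * K) := by
    field_simp
    ring
  rw [hexp] at hch
  refine le_trans ?_ hch
  have hunif : ∀ ω, 0 ≤ unifW (G ⊕ (G × G) → ZMod m) ω := fun ω => by unfold unifW; positivity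
  unfold Pr
  refine Finset.sum_le_sum fun lam _ => mul_le_mul_of_nonneg_left (ind_mono ?_) (hunif lam)
  intro h
  have h1 := lev_split g R φ h0 l lam
  have h2 : X / m * E = X / (4 * m) * E + 3 * (X / (4 * m) * E) := by
    field_simp; ring
  have h3 : X * E / (8 * m) + X * E / (8 * m) = X / (4 * m) * E := by
    field_simp; ring
  have h4 : 0 < X / (4 * m) * E := by positivity
  show X * E / (8 * m) + X * E / (8 * m) ≤ ∑ ι, ind (lam ι = l) * S ι
  rw [h3]
  linarith

end key

end Pool.Agent.Lib.MP_688fd0_co.TF.H32
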